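import Pool.Agent.H325R3.CritBasic

/-! The circulant graph on `13` vertices with connection set `[1, 2, 3, 5]`. -/

set_option autoImplicit false
set_option maxRecDepth 100000

namespace Pool.Agent.H325R3.Circ13

open Pool.Agent.H325R3.CritBasic

/-- adjacency of the circulant graph -/
def adjB (a b : Fin 13) : Bool :=
  (b - a == 1) || (b - a == 2) || (b - a == 3) || (b - a == 5) || (b - a == 8) || (b - a == 10) || (b - a == 11) || (b - a == 12)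

lemma adjB_symm : ∀ a b : Fin 13, adjB a b = true → adjB b a = true := by decide +kernel

lemma adjB_irrefl : ∀ a : Fin 13, adjB a a = false := by decide +kernel

def G0 : SimpleGraph (Fin 13) where
  Adj a b := adjB a b = true
  symm := ⟨fun a b h => adjB_symm a b h⟩
  loopless := ⟨fun a h => by rw [adjB_irrefl a] at h; exact Bool.false_ne_true h⟩

def T : Fin 13 → Fin 13 → Fin 13 → Fin 6 :=
  ![fun _ => fun _ => 0,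
    ![fun _ => 0, fun _ => 0, ![0, 0, 1, 2, 4, 3, 5, 0, 4, 1, 2, 3, 5], ![0, 0, 2, 1, 4, 3, 5, 0, 2, 1, 4, 3, 5], fun _ => 0, ![0, 0, 2, 3, 4, 1, 5, 0, 2, 1, 3, 4, 5], fun _ => 0, fun _ => 0, ![0, 0, 2, 3, 1, 4, 5, 0, 1, 4, 3, 2, 5], fun _ => 0, ![0, 0, 2, 3, 1, 4, 5, 0, 2, 3, 1, 4, 5], ![0, 0, 2, 3, 1, 4, 5, 0, 2, 4, 3, 1, 5], ![0, 0, 2, 3, 5, 4, 1, 0, 2, 4, 3, 5, 1]],
    ![fun _ => 0, ![0, 0, 1, 2, 4, 3, 5, 0, 4, 1, 2, 3, 5], fun _ => 0, ![0, 2, 0, 1, 4, 2, 0, 5, 3, 1, 4, 5, 3], fun _ => 0, ![0, 2, 0, 3, 4, 1, 0, 5, 2, 1, 4, 5, 3], fun _ => 0, fun _ => 0, ![0, 2, 0, 3, 1, 2, 5, 4, 1, 0, 3, 4, 5], fun _ => 0, ![0, 2, 0, 3, 4, 2, 1, 5, 4, 0, 1, 5, 3], ![0, 2, 0, 3, 4, 2, 5, 1, 4, 0, 3, 1, 5], ![0, 2, 0, 3, 4, 2, 1, 5, 4, 0, 3, 5, 1]],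
    ![fun _ => 0, ![0, 0, 2, 1, 4, 3, 5, 0, 2, 1, 4, 3, 5], ![0, 2, 0, 1, 4, 2, 0, 5, 3, 1, 4, 5, 3], fun _ => 0, fun _ => 0, ![0, 2, 3, 0, 4, 1, 5, 0, 2, 1, 4, 3, 5], fun _ => 0, fun _ => 0, ![0, 2, 3, 0, 1, 4, 5, 0, 1, 4, 2, 3, 5], fun _ => 0, ![0, 2, 3, 0, 1, 2, 5, 4, 3, 0, 1, 4, 5], ![0, 2, 3, 0, 4, 2, 5, 1, 3, 0, 4, 1, 5], ![0, 2, 3, 0, 4, 2, 1, 5, 3, 0, 4, 5, 1]],
    fun _ => fun _ => 0,
    ![fun _ => 0, ![0, 0, 2, 3, 4, 1, 5, 0, 2, 1, 3, 4, 5], ![0, 2, 0, 3, 4, 1, 0, 5, 2, 1, 4, 5, 3], ![0, 2, 3, 0, 4, 1, 5, 0, 2, 1, 4, 3, 5], fun _ => 0, fun _ => 0, fun _ => 0, fun _ => 0, ![0, 2, 3, 4, 1, 0, 5, 4, 1, 0, 2, 3, 5], fun _ => 0, ![0, 2, 3, 4, 1, 0, 5, 4, 2, 0, 1, 3, 5], ![0, 2, 3, 4, 5, 0, 3, 1, 2, 0, 5, 1, 4], ![0, 2, 3, 4, 5, 0, 1, 4, 2, 0, 5, 3, 1]],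
    fun _ => fun _ => 0,
    fun _ => fun _ => 0,
    ![fun _ => 0, ![0, 0, 2, 3, 1, 4, 5, 0, 1, 4, 3, 2, 5], ![0, 2, 0, 3, 1, 2, 5, 4, 1, 0, 3, 4, 5], ![0, 2, 3, 0, 1, 4, 5, 0, 1, 4, 2, 3, 5], fun _ => 0, ![0, 2, 3, 4, 1, 0, 5, 4, 1, 0, 2, 3, 5], fun _ => 0, fun _ => 0, fun _ => 0, fun _ => 0, ![0, 2, 3, 4, 0, 2, 1, 5, 0, 3, 1, 5, 4], ![0, 2, 3, 4, 0, 2, 5, 1, 0, 3, 4, 1, 5], ![0, 2, 3, 4, 0, 2, 1, 5, 0, 3, 4, 5, 1]],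
    fun _ => fun _ => 0,
    ![fun _ => 0, ![0, 0, 2, 3, 1, 4, 5, 0, 2, 3, 1, 4, 5], ![0, 2, 0, 3, 4, 2, 1, 5, 4, 0, 1, 5, 3], ![0, 2, 3, 0, 1, 2, 5, 4, 3, 0, 1, 4, 5], fun _ => 0, ![0, 2, 3, 4, 1, 0, 5, 4, 2, 0, 1, 3, 5], fun _ => 0, fun _ => 0, ![0, 2, 3, 4, 0, 2, 1, 5, 0, 3, 1, 5, 4], fun _ => 0, fun _ => 0, ![0, 2, 3, 4, 0, 2, 5, 1, 3, 4, 0, 1, 5], ![0, 2, 3, 4, 0, 2, 1, 5, 3, 4, 0, 5, 1]],
    ![fun _ => 0, ![0, 0, 2, 3, 1, 4, 5, 0, 2, 4, 3, 1, 5], ![0, 2, 0, 3, 4, 2, 5, 1, 4, 0, 3, 1, 5], ![0, 2, 3, 0, 4, 2, 5, 1, 3, 0, 4, 1, 5], fun _ => 0, ![0, 2, 3, 4, 5, 0, 3, 1, 2, 0, 5, 1, 4], fun _ => 0, fun _ => 0, ![0, 2, 3, 4, 0, 2, 5, 1, 0, 3, 4, 1, 5], fun _ => 0, ![0, 2, 3, 4, 0, 2, 5, 1, 3, 4, 0, 1, 5], fun _ => 0, ![0, 2, 3, 4, 5, 2, 1, 0, 3, 4, 5, 0, 1]],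
    ![fun _ => 0, ![0, 0, 2, 3, 5, 4, 1, 0, 2, 4, 3, 5, 1], ![0, 2, 0, 3, 4, 2, 1, 5, 4, 0, 3, 5, 1], ![0, 2, 3, 0, 4, 2, 1, 5, 3, 0, 4, 5, 1], fun _ => 0, ![0, 2, 3, 4, 5, 0, 1, 4, 2, 0, 5, 3, 1], fun _ => 0, fun _ => 0, ![0, 2, 3, 4, 0, 2, 1, 5, 0, 3, 4, 5, 1], fun _ => 0, ![0, 2, 3, 4, 0, 2, 1, 5, 3, 4, 0, 5, 1], ![0, 2, 3, 4, 5, 2, 1, 0, 3, 4, 5, 0, 1], fun _ => 0]]

lemma T_ok : ∀ a b : Fin 13, adjB 0 a = true → adjB 0 b = true → a ≠ b →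
    (∀ x y : Fin 13, x ≠ 0 → y ≠ 0 → adjB x y = true → T a b x ≠ T a b y) ∧
    (∀ x : Fin 13, adjB 0 x = true → x ≠ a → T a b x ≠ T a b a) ∧
    (∀ x : Fin 13, adjB 0 x = true → x ≠ b → T a b x ≠ T a b b) := by decide +kernel

lemma adjB_sub : ∀ w a b : Fin 13, adjB (a - w) (b - w) = adjB a b := by decide +kernel

lemma pairCol : PairCol 6 G0 := by
  intro w a b ha hb hab
  have h0 : ∀ z, adjB 0 (z - w) = adjB w z := by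
    intro z
    have := adjB_sub w w z
    rwa [sub_self] at this
  obtain ⟨h1, h2, h3⟩ := T_ok (a - w) (b - w) (by rw [h0]; exact ha) (by rw [h0]; exact hb)
    (fun h => hab (sub_left_injective h))
  refine ⟨fun x => T (a - w) (b - w) (x - w), ?_, ?_, ?_⟩
  · intro x y hx hy hxy
    exact h1 _ _ (sub_ne_zero.2 hx) (sub_ne_zero.2 hy) (by rw [adjB_sub]; exact hxy)
  · intro x hx hxa
    exact h2 _ (by rw [h0]; exact hx) (fun h => hxa (sub_left_injective h))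
  · intro x hx hxb
    exact h3 _ (by rw [h0]; exact hx) (fun h => hxb (sub_left_injective h))

lemma short0 : ∀ q x : Fin 13, adjB 0 q = true → x ≠ 0 → x ≠ q →
    ∃ z z' : Fin 13, z ≠ x ∧ z' ≠ x ∧ z ≠ q ∧ z' ≠ 0 ∧
    adjB 0 z = true ∧ (z = z' ∨ adjB z z' = true) ∧ adjB z' q = true := by decide +kernel

lemma shortCyc : ShortCyc G0 := by
  intro p q x hpq hxp hxq
  have h0 : ∀ z, adjB 0 (z - p) = adjB p z := by
    intro z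
    have := adjB_sub p p z
    rwa [sub_self] at this
  have hs : ∀ z y : Fin 13, adjB z (y - p) = adjB (z + p) y := by
    intro z y
    have := adjB_sub p (z + p) y
    rwa [add_sub_cancel_right] at this
  obtain ⟨z, z', h1, h2, h3, h4, h5, h6, h7⟩ := short0 (q - p) (x - p) (by rw [h0]; exact hpq)
    (sub_ne_zero.2 hxp) (fun h => hxq (sub_left_injective h))
  refine ⟨z + p, z' + p, ?_, ?_, ?_, ?_, ?_, ?_, ?_⟩
  · rintro rfl; simp at h1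
  · rintro rfl; simp at h2
  · rintro rfl; simp at h3
  · intro h; apply h4; simpa using h
  · have := hs 0 (z + p)
    rw [zero_add, add_sub_cancel_right] at this
    exact this.symm.trans h5
  · rcases h6 with h6 | h6
    · left; rw [h6]
    · right
      have := hs z (z' + p)
      rw [add_sub_cancel_right] at this
      exact this.symm.trans h6
  · have := hs z' q
    exact this.symm.trans h7

lemma two_nbrs : ∀ p r : Fin 13, adjB p r = true → ∃ z : Fin 13, z ≠ r ∧ adjB p z = true := by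
  decide +kernel

lemma no_isol : ∀ x : Fin 13, ∃ y : Fin 13, adjB x y = true := by decide +kernel

lemma colAux : ∀ a b : Fin 13, adjB a b = true →
      (![0, 1, 2, 3, 0, 1, 2, 4, 5, 3, 6, 4, 5] : Fin 13 → Fin 7) a ≠
      (![0, 1, 2, 3, 0, 1, 2, 4, 5, 3, 6, 4, 5] : Fin 13 → Fin 7) b := by decide +kernel

lemma col : G0.Colorable 7 :=
  ⟨SimpleGraph.Coloring.mk (![0, 1, 2, 3, 0, 1, 2, 4, 5, 3, 6, 4, 5] : Fin 13 → Fin 7)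
    (fun {a b} hab => colAux a b hab)⟩

lemma no_triple : ∀ a b c : Fin 13, a ≠ b → a ≠ c → b ≠ c →
    adjB a b = true ∨ adjB a c = true ∨ adjB b c = true := by decide +kernel

lemma not_col : ¬ G0.Colorable 6 := by
  rintro ⟨c⟩
  obtain ⟨y, hy⟩ := Fintype.exists_lt_card_fiber_of_mul_lt_card (f := fun x => c x) (n := 2)
    (by simp)
  obtain ⟨a, ha, b, hb, d, hd, hab, had, hbd⟩ := Finset.two_lt_card.1 hy
  simp only [Finset.mem_filter, Finset.mem_univ, true_and] at ha hb hd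
  rcases no_triple a b d hab had hbd with h | h | h
  · exact c.valid (v := a) (w := b) h (ha.trans hb.symm)
  · exact c.valid (v := a) (w := d) h (ha.trans hd.symm)
  · exact c.valid (v := b) (w := d) h (hb.trans hd.symm)

theorem main : IsCritical 7 G0 ∧ ¬ CritBuilt 7 G0 :=
  ⟨critical_of_pairCol col not_col pairCol two_nbrs no_isol,
    not_built (q := 6) (by norm_num) (by norm_num) pairCol shortCyc⟩

end Pool.Agent.H325R3.Circ13
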