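import Mathlib

/-! Basic facts on critical graphs, and graphs that arise from no critical graph by a Hajos join or
an identification. -/

set_option autoImplicit false

namespace Pool.Agent.H325R3.CritBasic

open SimpleGraph

/-- `k`-critical: chromatic number `k`, every proper subgraph has smaller chromatic number -/
def IsCritical (k : ℕ) {V : Type} (G : SimpleGraph V) : Prop :=
  G.chromaticNumber = (k : ℕ∞) ∧ ∀ S : G.Subgraph, S ≠ ⊤ → S.coe.chromaticNumber < (k : ℕ∞)

lemma not_col {q : ℕ} {V : Type} {G : SimpleGraph V} (h : IsCritical (q + 1) G) :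
    ¬ G.Colorable q := by
  intro hc
  have h1 := hc.chromaticNumber_le
  rw [h.1] at h1
  have h2 : q + 1 ≤ q := by exact_mod_cast h1
  omega

/-- a colouring with `q` colours whose only conflicts are on the edge `ab` -/
lemma exists_conf {q : ℕ} {V : Type} {G : SimpleGraph V} (h : IsCritical (q + 1) G) {a b : V}
    (hab : G.Adj a b) : ∃ c : V → Fin q, ∀ x y, G.Adj x y → s(x, y) ≠ s(a, b) → c x ≠ c y := by
  have hne : (⊤ : G.Subgraph).deleteEdges {s(a, b)} ≠ ⊤ := by
    intro he
    have h1 : ((⊤ : G.Subgraph).deleteEdges {s(a, b)}).Adj a b := by rw [he]; exact hab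
    rw [SimpleGraph.Subgraph.deleteEdges_adj] at h1
    exact h1.2 rfl
  have h1 := h.2 _ hne
  have h2 : ((⊤ : G.Subgraph).deleteEdges {s(a, b)}).coe.Colorable q := by
    rw [← SimpleGraph.chromaticNumber_le_iff_colorable]
    push_cast at h1
    exact Order.le_of_lt_add_one h1
  obtain ⟨C⟩ := h2
  refine ⟨fun v => C ⟨v, Set.mem_univ v⟩, fun x y hxy hne' => ?_⟩
  have h3 : ((⊤ : G.Subgraph).deleteEdges {s(a, b)}).coe.Adj ⟨x, Set.mem_univ x⟩
      ⟨y, Set.mem_univ y⟩ := by
    rw [SimpleGraph.Subgraph.coe_adj, SimpleGraph.Subgraph.deleteEdges_adj]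
    exact ⟨hxy, hne'⟩
  exact C.valid h3

lemma no_isolated {q : ℕ} (hq : 0 < q) {V : Type} {G : SimpleGraph V} (h : IsCritical (q + 1) G)
    (v : V) : ∃ w, G.Adj v w := by
  classical
  by_contra hcon
  push Not at hcon
  have hne : (⊤ : G.Subgraph).deleteVerts {v} ≠ ⊤ := by
    intro he
    have h1 : v ∈ ((⊤ : G.Subgraph).deleteVerts {v}).verts := by rw [he]; exact Set.mem_univ v
    rw [SimpleGraph.Subgraph.deleteVerts_verts] at h1
    exact h1.2 rfl
  have h1 := h.2 _ hne
  have h2 : ((⊤ : G.Subgraph).deleteVerts {v}).coe.Colorable q := by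
    rw [← SimpleGraph.chromaticNumber_le_iff_colorable]
    push_cast at h1
    exact Order.le_of_lt_add_one h1
  obtain ⟨C⟩ := h2
  have hmem : ∀ x, x ≠ v → x ∈ ((⊤ : G.Subgraph).deleteVerts {v}).verts := by
    intro x hx
    rw [SimpleGraph.Subgraph.deleteVerts_verts]
    exact ⟨Set.mem_univ x, hx⟩
  apply not_col h
  refine ⟨SimpleGraph.Coloring.mk (fun x => if hx : x = v then ⟨0, hq⟩ else C ⟨x, hmem x hx⟩) ?_⟩
  intro x y hxy
  have hx : x ≠ v := by rintro rfl; exact hcon y hxy
  have hy : y ≠ v := by rintro rfl; exact hcon x hxy.symm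
  simp only [dif_neg hx, dif_neg hy]
  apply C.valid
  rw [SimpleGraph.Subgraph.coe_adj, SimpleGraph.Subgraph.deleteVerts_adj]
  exact ⟨Set.mem_univ x, hx, Set.mem_univ y, hy, hxy⟩

lemma critical_of {q : ℕ} {V : Type} {G : SimpleGraph V} (h0 : G.Colorable (q + 1))
    (h1 : ¬ G.Colorable q)
    (h2 : ∀ a b, G.Adj a b → ∃ c : V → Fin q, ∀ x y, G.Adj x y → s(x, y) ≠ s(a, b) → c x ≠ c y)
    (h3 : ∀ v, ∃ w, G.Adj v w) : IsCritical (q + 1) G := by
  constructor
  · apply le_antisymm
    · exact h0.chromaticNumber_le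
    · by_contra hcon
      rw [not_le] at hcon
      apply h1
      rw [← SimpleGraph.chromaticNumber_le_iff_colorable]
      push_cast at hcon
      exact Order.le_of_lt_add_one hcon
  · intro S hS
    -- some edge of `G` is missing in `S`
    obtain ⟨a, b, hab, hSab⟩ : ∃ a b, G.Adj a b ∧ ¬ S.Adj a b := by
      by_contra hcon
      push Not at hcon
      apply hS
      have hv : S.verts = Set.univ := by
        rw [Set.eq_univ_iff_forall]
        intro v
        obtain ⟨w, hw⟩ := h3 v
        exact S.edge_vert (hcon v w hw)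
      apply SimpleGraph.Subgraph.ext
      · rw [hv]; rfl
      · funext x y
        apply propext
        exact ⟨fun h => S.adj_sub h, fun h => hcon x y h⟩
    obtain ⟨c, hc⟩ := h2 a b hab
    have hcol : S.coe.Colorable q := by
      refine ⟨SimpleGraph.Coloring.mk (fun x => c x.1) ?_⟩
      intro x y hxy
      rw [SimpleGraph.Subgraph.coe_adj] at hxy
      apply hc _ _ (S.adj_sub hxy)
      intro he
      rw [Sym2.eq_iff] at he
      rcases he with ⟨h4, h5⟩ | ⟨h4, h5⟩
      · rw [h4, h5] at hxy; exact hSab hxy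
      · rw [h4, h5] at hxy; exact hSab hxy.symm
    have := hcol.chromaticNumber_le
    refine lt_of_le_of_lt this ?_
    exact_mod_cast Nat.lt_succ_self q

/-- `H` is a Hajos join of `G1` and `G2`: for some edges `x1 y1` of `G1` and `x2 y2` of `G2`, the
graph `H` arises from disjoint copies of `G1` and `G2` (placed in `H` by the injections `f1` and
`f2`) by deleting both edges, identifying `x1` with `x2`, and adding the edge `y1 y2`. -/
def IsHajosJoin {a b m : ℕ} (G1 : SimpleGraph (Fin a)) (G2 : SimpleGraph (Fin b))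
    (H : SimpleGraph (Fin m)) : Prop :=
  ∃ (x1 y1 : Fin a) (x2 y2 : Fin b) (f1 : Fin a → Fin m) (f2 : Fin b → Fin m),
    G1.Adj x1 y1 ∧ G2.Adj x2 y2 ∧
    Function.Injective f1 ∧ Function.Injective f2 ∧ f1 x1 = f2 x2 ∧
    (∀ p q, f1 p = f2 q → p = x1 ∧ q = x2) ∧
    (∀ z, (∃ p, f1 p = z) ∨ ∃ q, f2 q = z) ∧
    ∀ z w, H.Adj z w ↔
      (∃ p q, (G1.deleteEdges {s(x1, y1)}).Adj p q ∧ f1 p = z ∧ f1 q = w) ∨
      (∃ p q, (G2.deleteEdges {s(x2, y2)}).Adj p q ∧ f2 p = z ∧ f2 q = w) ∨
      s(z, w) = s(f1 y1, f2 y2)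

/-- `H` arises from `G` by identifying two non-adjacent vertices `u`, `v` (multiple edges being
replaced by single edges): `f` is the quotient map. -/
def IsIdentification {n m : ℕ} (G : SimpleGraph (Fin n)) (H : SimpleGraph (Fin m)) : Prop :=
  ∃ (u v : Fin n) (f : Fin n → Fin m), u ≠ v ∧ ¬ G.Adj u v ∧ Function.Surjective f ∧
    (∀ a b, f a = f b ↔ a = b ∨ (a = u ∧ b = v) ∨ (a = v ∧ b = u)) ∧
    ∀ z w, H.Adj z w ↔ ∃ p q, G.Adj p q ∧ f p = z ∧ f q = w

/-- The graphs with a construction from copies of `K_k` by Hajos joins and identifications of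
non-adjacent vertices in which every graph of the sequence is `k`-critical. -/
inductive CritBuilt (k : ℕ) : {n : ℕ} → SimpleGraph (Fin n) → Prop
  | complete {n : ℕ} (G : SimpleGraph (Fin n)) (h : Nonempty (G ≃g (⊤ : SimpleGraph (Fin k)))) :
      CritBuilt k G
  | join {a b m : ℕ} (G1 : SimpleGraph (Fin a)) (G2 : SimpleGraph (Fin b))
      (H : SimpleGraph (Fin m)) (h1 : CritBuilt k G1) (h2 : CritBuilt k G2)
      (h : IsHajosJoin G1 G2 H) (hc : IsCritical k H) : CritBuilt k H
  | identify {n m : ℕ} (G : SimpleGraph (Fin n)) (H : SimpleGraph (Fin m))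
      (h1 : CritBuilt k G) (h : IsIdentification G H) (hc : IsCritical k H) : CritBuilt k H

/-- every vertex `w`: for any two neighbours `a ≠ b` there is a colouring of `G - w` with `q`
colours in which `a` and `b` are the only neighbours of `w` with their colours -/
def PairCol (q : ℕ) {V : Type} (G : SimpleGraph V) : Prop :=
  ∀ w a b, G.Adj w a → G.Adj w b → a ≠ b →
    ∃ c : V → Fin q, (∀ x y, x ≠ w → y ≠ w → G.Adj x y → c x ≠ c y) ∧
      (∀ x, G.Adj w x → x ≠ a → c x ≠ c a) ∧ (∀ x, G.Adj w x → x ≠ b → c x ≠ c b)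

lemma nbr_not_sub {q : ℕ} (hq : 0 < q) {V : Type} {G : SimpleGraph V} (hG : IsCritical (q + 1) G)
    (u v : V) (huv : u ≠ v) (h : ∀ y, G.Adj u y → G.Adj v y) : False := by
  classical
  obtain ⟨y0, hy0⟩ := no_isolated hq hG u
  obtain ⟨c, hc⟩ := exists_conf hG hy0
  apply not_col hG
  have key : ∀ x y, x ≠ u → y ≠ u → G.Adj x y → c x ≠ c y := by
    intro x y hx hy hxy
    apply hc x y hxy
    intro he
    rw [Sym2.eq_iff] at he
    rcases he with ⟨h1, -⟩ | ⟨-, h1⟩
    · exact hx h1
    · exact hy h1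
  refine ⟨SimpleGraph.Coloring.mk (fun x => if x = u then c v else c x) ?_⟩
  intro x y hxy
  by_cases hx : x = u
  · subst hx
    have hyx : y ≠ x := hxy.ne'
    simp only [if_true, if_neg hyx]
    exact key v y huv.symm hyx (h y hxy)
  · by_cases hy : y = u
    · subst hy
      simp only [if_true, if_neg hx]
      exact (key v x huv.symm hx (h x hxy.symm)).symm
    · simp only [if_neg hx, if_neg hy]
      exact key x y hx hy hxy

/-- a graph with `PairCol q` does not arise from a `(q+1)`-critical graph by identification -/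
lemma no_ident {q : ℕ} (hq : 0 < q) {n m : ℕ} {G : SimpleGraph (Fin n)}
    {G0 : SimpleGraph (Fin m)} (hG : IsCritical (q + 1) G)
    (h0 : PairCol q G0) (hid : IsIdentification G G0) : False := by
  classical
  obtain ⟨u, v, g, huv, hnadj, -, hg, hadj⟩ := hid
  have hguv : g u = g v := (hg u v).2 (Or.inr (Or.inl ⟨rfl, rfl⟩))
  have claim : ∀ s t : Fin n, s ≠ t → ¬ G.Adj t s →
      (∀ x y, g x = g y → (x = y ∨ (x = s ∧ y = t) ∨ (x = t ∧ y = s))) →
      g s = g t → ∃ a, G0.Adj (g s) a ∧ ∀ x, G.Adj t x → g x ≠ a := by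
    intro s t hst hn h1 h2
    by_contra hcon
    push Not at hcon
    refine nbr_not_sub hq hG s t hst ?_
    intro y hy
    obtain ⟨x, hx, hxy⟩ := hcon (g y) ((hadj _ _).2 ⟨s, y, hy, rfl, rfl⟩)
    rcases h1 x y hxy with rfl | ⟨rfl, rfl⟩ | ⟨rfl, rfl⟩
    · exact hx
    · exact absurd hx hn
    · exact absurd hx (G.loopless.irrefl _)
  obtain ⟨a, ha, ha'⟩ := claim u v huv (fun h => hnadj h.symm) (fun x y h => (hg x y).1 h) hguv
  obtain ⟨b, hb, hb'⟩ := claim v u huv.symm hnadj (fun x y h => by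
    rcases (hg x y).1 h with h | h | h
    · exact Or.inl h
    · exact Or.inr (Or.inr h)
    · exact Or.inr (Or.inl h)) hguv.symm
  rw [← hguv] at hb
  have hab : a ≠ b := by
    obtain ⟨x, y, hxy, hx, hy⟩ := (hadj _ _).1 ha
    rcases (hg x u).1 hx with rfl | ⟨rfl, -⟩ | ⟨rfl, -⟩
    · intro h
      exact hb' y hxy (hy.trans h)
    · intro h
      exact hb' y hxy (hy.trans h)
    · exact absurd hy (ha' y hxy)
  obtain ⟨c, h1, h2, h3⟩ := h0 (g u) a b ha hb hab
  apply not_col hG
  refine ⟨SimpleGraph.Coloring.mk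
    (fun x => if x = u then c b else if x = v then c a else c (g x)) ?_⟩
  have hgu : ∀ x, x ≠ u → x ≠ v → g x ≠ g u := by
    intro x hx hxv h
    rcases (hg x u).1 h with h | ⟨h, -⟩ | ⟨h, -⟩
    · exact hx h
    · exact hx h
    · exact hxv h
  have main : ∀ x y, G.Adj x y → x ≠ v → y ≠ u →
      (if x = u then c b else if x = v then c a else c (g x)) ≠
      (if y = u then c b else if y = v then c a else c (g y)) := by
    intro x y hxy hxv hyu
    by_cases hx : x = u
    · subst hx
      have hyv : y ≠ v := fun h => hnadj (h ▸ hxy)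
      simp only [if_true, if_neg hyu, if_neg hyv]
      exact (h3 (g y) ((hadj _ _).2 ⟨x, y, hxy, rfl, rfl⟩) (hb' y hxy)).symm
    · by_cases hy : y = v
      · subst hy
        simp only [if_true, if_neg hx, if_neg hxv, if_neg hyu]
        exact h2 (g x) (by rw [hguv]; exact (hadj _ _).2 ⟨y, x, hxy.symm, rfl, rfl⟩)
          (ha' x hxy.symm)
      · simp only [if_neg hx, if_neg hxv, if_neg hyu, if_neg hy]
        exact h1 _ _ (hgu x hx hxv) (hgu y hyu hy) ((hadj _ _).2 ⟨x, y, hxy, rfl, rfl⟩)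
  intro x y hxy
  by_cases hxv : x = v
  · by_cases hyv : y = v
    · exact absurd (hxv.trans hyv.symm) hxy.ne
    · have hxu : x ≠ u := by rw [hxv]; exact huv.symm
      exact (main y x hxy.symm hyv hxu).symm
  · by_cases hyu : y = u
    · by_cases hxu : x = u
      · exact absurd (hxu.trans hyu.symm) hxy.ne
      · have hyv : y ≠ v := by rw [hyu]; exact huv
        exact (main y x hxy.symm hyv hxu).symm
    · exact main x y hxy hxv hyu

/-- for every edge `pq` and every further vertex `x` there is a path with two or three edges from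
`p` to `q` avoiding `x` -/
def ShortCyc {V : Type} (G : SimpleGraph V) : Prop :=
  ∀ p q x, G.Adj p q → x ≠ p → x ≠ q → ∃ z z', z ≠ x ∧ z' ≠ x ∧ z ≠ q ∧ z' ≠ p ∧
    G.Adj p z ∧ (z = z' ∨ G.Adj z z') ∧ G.Adj z' q

lemma no_join {a b m : ℕ} {G1 : SimpleGraph (Fin a)} {G2 : SimpleGraph (Fin b)}
    {H : SimpleGraph (Fin m)} (hS : ShortCyc H) (hj : IsHajosJoin G1 G2 H) : False := by
  obtain ⟨x1, y1, x2, y2, f1, f2, e1, e2, i1, i2, hxx, hf, hcov, hadj⟩ := hj
  have hpq : H.Adj (f1 y1) (f2 y2) := (hadj _ _).2 (Or.inr (Or.inr rfl))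
  have hp : f1 x1 ≠ f1 y1 := fun h => e1.ne (i1 h)
  have hq : f1 x1 ≠ f2 y2 := fun h => e2.ne (i2 (hxx ▸ h))
  obtain ⟨z, z', hz, hz', hzq, hzp, h1, h2, h3⟩ := hS _ _ _ hpq hp hq
  -- leaving the first side is possible only along the new edge
  have step : ∀ s t, (∃ i, f1 i = s) → s ≠ f1 x1 → t ≠ f1 x1 → H.Adj s t →
      s(s, t) ≠ s(f1 y1, f2 y2) → ∃ i, f1 i = t := by
    rintro s t ⟨i, rfl⟩ hs ht hst hne
    rcases (hadj _ _).1 hst with ⟨p, q, -, -, h⟩ | ⟨p, q, -, h5, -⟩ | h
    · exact ⟨q, h⟩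
    · have := (hf _ _ h5.symm).1
      exact absurd (by rw [this]) hs
    · exact absurd h hne
  have k1 : ∃ i, f1 i = z := by
    refine step _ _ ⟨y1, rfl⟩ hp.symm hz h1 ?_
    intro he
    rw [Sym2.eq_iff] at he
    rcases he with ⟨-, h⟩ | ⟨-, h⟩
    · exact hzq h
    · exact h1.ne h.symm
  have k2 : ∃ i, f1 i = z' := by
    rcases h2 with h2 | h2
    · rw [← h2]; exact k1
    · refine step _ _ k1 hz hz' h2 ?_
      intro he
      rw [Sym2.eq_iff] at he
      rcases he with ⟨h, -⟩ | ⟨h, -⟩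
      · exact h1.ne h.symm
      · exact hzq h
  have k3 : ∃ i, f1 i = f2 y2 := by
    refine step _ _ k2 hz' hq.symm h3 ?_
    intro he
    rw [Sym2.eq_iff] at he
    rcases he with ⟨h, -⟩ | ⟨h, -⟩
    · exact hzp h
    · exact h3.ne h
  obtain ⟨i, hi⟩ := k3
  have := (hf _ _ hi).2
  exact e2.ne this.symm

lemma critical_complete (q : ℕ) (hq : 0 < q) {n : ℕ} {G : SimpleGraph (Fin n)}
    (h : Nonempty (G ≃g (⊤ : SimpleGraph (Fin (q + 1))))) : IsCritical (q + 1) G := by
  classical
  obtain ⟨e⟩ := h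
  have hadj : ∀ x y, G.Adj x y ↔ x ≠ y := by
    intro x y
    rw [← e.map_adj_iff, SimpleGraph.top_adj, e.injective.ne_iff]
  apply critical_of
  · exact ⟨SimpleGraph.Coloring.mk (fun x => e x) (fun {x y} hxy => by
      rw [Ne, e.injective.eq_iff]; exact hxy.ne)⟩
  · rintro ⟨c⟩
    have hinj : Function.Injective c := by
      intro x y hxy
      by_contra hne
      exact c.valid ((hadj x y).2 hne) hxy
    have h1 := Fintype.card_le_of_injective c hinj
    have h2 := Fintype.card_congr e.toEquiv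
    rw [h2] at h1
    simp at h1
  · intro a b hab
    have hab' : a ≠ b := hab.ne
    obtain ⟨g⟩ : Nonempty ({x : Fin n // x ≠ a} ≃ Fin q) := by
      apply Fintype.card_eq.1
      have h2 := Fintype.card_congr e.toEquiv
      simp at h2 ⊢
      omega
    refine ⟨fun x => if h : x = a then g ⟨b, hab'.symm⟩ else g ⟨x, h⟩, ?_⟩
    intro x y hxy hne hc
    apply hne
    by_cases hx : x = a
    · have hy : y ≠ a := fun h => hxy.ne (hx.trans h.symm)
      simp only [dif_pos hx, dif_neg hy] at hc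
      have := congrArg Subtype.val (g.injective hc)
      simp only at this
      rw [hx, this]
    · by_cases hy : y = a
      · simp only [dif_neg hx, dif_pos hy] at hc
        have := congrArg Subtype.val (g.injective hc)
        simp only at this
        rw [hy, this, Sym2.eq_swap]
      · simp only [dif_neg hx, dif_neg hy] at hc
        have := congrArg Subtype.val (g.injective hc)
        exact absurd this hxy.ne
  · intro v
    have h2 := Fintype.card_congr e.toEquiv
    simp at h2
    haveI : Nontrivial (Fin n) := by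
      apply Fin.nontrivial_iff_two_le.2
      omega
    obtain ⟨w, hw⟩ := exists_ne v
    exact ⟨w, (hadj v w).2 hw.symm⟩

lemma built_critical {q : ℕ} (hq : 0 < q) {n : ℕ} {G : SimpleGraph (Fin n)}
    (h : CritBuilt (q + 1) G) : IsCritical (q + 1) G := by
  cases h with
  | complete _ h => exact critical_complete q hq h
  | join _ _ _ _ _ _ hc => exact hc
  | identify _ _ _ _ hc => exact hc

/-- a graph with `PairCol` and `ShortCyc` that is not complete is not built through critical graphs -/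
theorem not_built {q : ℕ} (hq : 0 < q) {m : ℕ} {G0 : SimpleGraph (Fin m)} (hm : m ≠ q + 1)
    (h0 : PairCol q G0) (hS : ShortCyc G0) : ¬ CritBuilt (q + 1) G0 := by
  intro h
  cases h with
  | complete _ h =>
    obtain ⟨e⟩ := h
    have h2 := Fintype.card_congr e.toEquiv
    simp at h2
    exact hm h2
  | join G1 G2 _ h1 h2 h hc => exact no_join hS h
  | identify G _ h1 h hc => exact no_ident hq (built_critical hq h1) h0 h

/-- criticality from `PairCol` -/
theorem critical_of_pairCol {q : ℕ} {m : ℕ} {G0 : SimpleGraph (Fin m)}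
    (h0 : G0.Colorable (q + 1)) (h1 : ¬ G0.Colorable q) (hp : PairCol q G0)
    (h2 : ∀ p r, G0.Adj p r → ∃ z, z ≠ r ∧ G0.Adj p z) (h3 : ∀ v, ∃ w, G0.Adj v w) :
    IsCritical (q + 1) G0 := by
  classical
  refine critical_of h0 h1 ?_ h3
  intro w a hwa
  obtain ⟨b, hba, hwb⟩ := h2 w a hwa
  obtain ⟨c, h1, h2, h3⟩ := hp w a b hwa hwb hba.symm
  refine ⟨fun x => if x = w then c a else c x, ?_⟩
  intro x y hxy hne
  by_cases hx : x = w
  · subst hx
    have hyx : y ≠ x := hxy.ne'
    have hya : y ≠ a := fun h => hne (by rw [h])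
    simp only [if_true, if_neg hyx]
    exact (h2 y hxy hya).symm
  · by_cases hy : y = w
    · subst hy
      have hxa : x ≠ a := fun h => hne (by rw [h, Sym2.eq_swap])
      simp only [if_true, if_neg hx]
      exact h2 x hxy.symm hxa
    · simp only [if_neg hx, if_neg hy]
      exact h1 x y hx hy hxy

end Pool.Agent.H325R3.CritBasic
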