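import Mathlib

/-! The cube of the 11-cycle: the circulant graph `C11(1,2,3)`. -/

set_option autoImplicit false
set_option maxRecDepth 100000

namespace Pool.Agent.H325R3.Cyc11

/-- adjacency of the circulant graph `C11(1,2,3)` -/
def adjB (a b : Fin 11) : Bool :=
  (b - a == 1) || (b - a == 2) || (b - a == 3) || (b - a == 8) || (b - a == 9) || (b - a == 10)

lemma adjB_symm : ∀ a b : Fin 11, adjB a b = true → adjB b a = true := by decide +kernel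

lemma adjB_irrefl : ∀ a : Fin 11, adjB a a = false := by decide +kernel

def G0 : SimpleGraph (Fin 11) where
  Adj a b := adjB a b = true
  symm := ⟨fun a b h => adjB_symm a b h⟩
  loopless := ⟨fun a h => by rw [adjB_irrefl a] at h; exact Bool.false_ne_true h⟩

def T : Fin 11 → Fin 11 → Fin 11 → Fin 5 :=
  ![![![0, 0, 0, 0, 0, 0, 0, 0, 0, 0, 0],
      ![0, 0, 0, 0, 0, 0, 0, 0, 0, 0, 0],
      ![0, 0, 0, 0, 0, 0, 0, 0, 0, 0, 0],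
      ![0, 0, 0, 0, 0, 0, 0, 0, 0, 0, 0],
      ![0, 0, 0, 0, 0, 0, 0, 0, 0, 0, 0],
      ![0, 0, 0, 0, 0, 0, 0, 0, 0, 0, 0],
      ![0, 0, 0, 0, 0, 0, 0, 0, 0, 0, 0],
      ![0, 0, 0, 0, 0, 0, 0, 0, 0, 0, 0],
      ![0, 0, 0, 0, 0, 0, 0, 0, 0, 0, 0],
      ![0, 0, 0, 0, 0, 0, 0, 0, 0, 0, 0],
      ![0, 0, 0, 0, 0, 0, 0, 0, 0, 0, 0]],
    ![![0, 0, 0, 0, 0, 0, 0, 0, 0, 0, 0],
      ![0, 0, 0, 0, 0, 0, 0, 0, 0, 0, 0],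
      ![0, 0, 1, 2, 3, 0, 4, 1, 2, 3, 4],
      ![0, 0, 1, 2, 3, 0, 4, 2, 1, 3, 4],
      ![0, 0, 0, 0, 0, 0, 0, 0, 0, 0, 0],
      ![0, 0, 0, 0, 0, 0, 0, 0, 0, 0, 0],
      ![0, 0, 0, 0, 0, 0, 0, 0, 0, 0, 0],
      ![0, 0, 0, 0, 0, 0, 0, 0, 0, 0, 0],
      ![0, 0, 1, 2, 3, 0, 4, 1, 3, 2, 4],
      ![0, 0, 1, 2, 3, 0, 4, 1, 2, 3, 4],
      ![0, 0, 1, 2, 3, 0, 4, 1, 2, 3, 4]],
    ![![0, 0, 0, 0, 0, 0, 0, 0, 0, 0, 0],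
      ![0, 0, 1, 2, 3, 0, 4, 1, 2, 3, 4],
      ![0, 0, 0, 0, 0, 0, 0, 0, 0, 0, 0],
      ![0, 0, 1, 2, 3, 4, 1, 2, 0, 3, 4],
      ![0, 0, 0, 0, 0, 0, 0, 0, 0, 0, 0],
      ![0, 0, 0, 0, 0, 0, 0, 0, 0, 0, 0],
      ![0, 0, 0, 0, 0, 0, 0, 0, 0, 0, 0],
      ![0, 0, 0, 0, 0, 0, 0, 0, 0, 0, 0],
      ![0, 0, 1, 2, 3, 0, 4, 1, 3, 2, 4],
      ![0, 0, 1, 2, 3, 0, 4, 1, 2, 3, 4],
      ![0, 0, 1, 2, 3, 0, 4, 1, 2, 3, 4]],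
    ![![0, 0, 0, 0, 0, 0, 0, 0, 0, 0, 0],
      ![0, 0, 1, 2, 3, 0, 4, 2, 1, 3, 4],
      ![0, 0, 1, 2, 3, 4, 1, 2, 0, 3, 4],
      ![0, 0, 0, 0, 0, 0, 0, 0, 0, 0, 0],
      ![0, 0, 0, 0, 0, 0, 0, 0, 0, 0, 0],
      ![0, 0, 0, 0, 0, 0, 0, 0, 0, 0, 0],
      ![0, 0, 0, 0, 0, 0, 0, 0, 0, 0, 0],
      ![0, 0, 0, 0, 0, 0, 0, 0, 0, 0, 0],
      ![0, 0, 1, 2, 3, 0, 4, 2, 3, 1, 4],
      ![0, 0, 1, 2, 3, 0, 4, 2, 1, 3, 4],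
      ![0, 0, 1, 2, 3, 0, 4, 2, 1, 3, 4]],
    ![![0, 0, 0, 0, 0, 0, 0, 0, 0, 0, 0],
      ![0, 0, 0, 0, 0, 0, 0, 0, 0, 0, 0],
      ![0, 0, 0, 0, 0, 0, 0, 0, 0, 0, 0],
      ![0, 0, 0, 0, 0, 0, 0, 0, 0, 0, 0],
      ![0, 0, 0, 0, 0, 0, 0, 0, 0, 0, 0],
      ![0, 0, 0, 0, 0, 0, 0, 0, 0, 0, 0],
      ![0, 0, 0, 0, 0, 0, 0, 0, 0, 0, 0],
      ![0, 0, 0, 0, 0, 0, 0, 0, 0, 0, 0],
      ![0, 0, 0, 0, 0, 0, 0, 0, 0, 0, 0],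
      ![0, 0, 0, 0, 0, 0, 0, 0, 0, 0, 0],
      ![0, 0, 0, 0, 0, 0, 0, 0, 0, 0, 0]],
    ![![0, 0, 0, 0, 0, 0, 0, 0, 0, 0, 0],
      ![0, 0, 0, 0, 0, 0, 0, 0, 0, 0, 0],
      ![0, 0, 0, 0, 0, 0, 0, 0, 0, 0, 0],
      ![0, 0, 0, 0, 0, 0, 0, 0, 0, 0, 0],
      ![0, 0, 0, 0, 0, 0, 0, 0, 0, 0, 0],
      ![0, 0, 0, 0, 0, 0, 0, 0, 0, 0, 0],
      ![0, 0, 0, 0, 0, 0, 0, 0, 0, 0, 0],
      ![0, 0, 0, 0, 0, 0, 0, 0, 0, 0, 0],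
      ![0, 0, 0, 0, 0, 0, 0, 0, 0, 0, 0],
      ![0, 0, 0, 0, 0, 0, 0, 0, 0, 0, 0],
      ![0, 0, 0, 0, 0, 0, 0, 0, 0, 0, 0]],
    ![![0, 0, 0, 0, 0, 0, 0, 0, 0, 0, 0],
      ![0, 0, 0, 0, 0, 0, 0, 0, 0, 0, 0],
      ![0, 0, 0, 0, 0, 0, 0, 0, 0, 0, 0],
      ![0, 0, 0, 0, 0, 0, 0, 0, 0, 0, 0],
      ![0, 0, 0, 0, 0, 0, 0, 0, 0, 0, 0],
      ![0, 0, 0, 0, 0, 0, 0, 0, 0, 0, 0],
      ![0, 0, 0, 0, 0, 0, 0, 0, 0, 0, 0],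
      ![0, 0, 0, 0, 0, 0, 0, 0, 0, 0, 0],
      ![0, 0, 0, 0, 0, 0, 0, 0, 0, 0, 0],
      ![0, 0, 0, 0, 0, 0, 0, 0, 0, 0, 0],
      ![0, 0, 0, 0, 0, 0, 0, 0, 0, 0, 0]],
    ![![0, 0, 0, 0, 0, 0, 0, 0, 0, 0, 0],
      ![0, 0, 0, 0, 0, 0, 0, 0, 0, 0, 0],
      ![0, 0, 0, 0, 0, 0, 0, 0, 0, 0, 0],
      ![0, 0, 0, 0, 0, 0, 0, 0, 0, 0, 0],
      ![0, 0, 0, 0, 0, 0, 0, 0, 0, 0, 0],
      ![0, 0, 0, 0, 0, 0, 0, 0, 0, 0, 0],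
      ![0, 0, 0, 0, 0, 0, 0, 0, 0, 0, 0],
      ![0, 0, 0, 0, 0, 0, 0, 0, 0, 0, 0],
      ![0, 0, 0, 0, 0, 0, 0, 0, 0, 0, 0],
      ![0, 0, 0, 0, 0, 0, 0, 0, 0, 0, 0],
      ![0, 0, 0, 0, 0, 0, 0, 0, 0, 0, 0]],
    ![![0, 0, 0, 0, 0, 0, 0, 0, 0, 0, 0],
      ![0, 0, 1, 2, 3, 0, 4, 1, 3, 2, 4],
      ![0, 0, 1, 2, 3, 0, 4, 1, 3, 2, 4],
      ![0, 0, 1, 2, 3, 0, 4, 2, 3, 1, 4],
      ![0, 0, 0, 0, 0, 0, 0, 0, 0, 0, 0],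
      ![0, 0, 0, 0, 0, 0, 0, 0, 0, 0, 0],
      ![0, 0, 0, 0, 0, 0, 0, 0, 0, 0, 0],
      ![0, 0, 0, 0, 0, 0, 0, 0, 0, 0, 0],
      ![0, 0, 0, 0, 0, 0, 0, 0, 0, 0, 0],
      ![0, 0, 1, 2, 3, 4, 0, 1, 3, 4, 2],
      ![0, 0, 1, 2, 3, 0, 4, 1, 3, 2, 4]],
    ![![0, 0, 0, 0, 0, 0, 0, 0, 0, 0, 0],
      ![0, 0, 1, 2, 3, 0, 4, 1, 2, 3, 4],
      ![0, 0, 1, 2, 3, 0, 4, 1, 2, 3, 4],
      ![0, 0, 1, 2, 3, 0, 4, 2, 1, 3, 4],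
      ![0, 0, 0, 0, 0, 0, 0, 0, 0, 0, 0],
      ![0, 0, 0, 0, 0, 0, 0, 0, 0, 0, 0],
      ![0, 0, 0, 0, 0, 0, 0, 0, 0, 0, 0],
      ![0, 0, 0, 0, 0, 0, 0, 0, 0, 0, 0],
      ![0, 0, 1, 2, 3, 4, 0, 1, 3, 4, 2],
      ![0, 0, 0, 0, 0, 0, 0, 0, 0, 0, 0],
      ![0, 0, 1, 2, 3, 0, 4, 1, 2, 3, 4]],
    ![![0, 0, 0, 0, 0, 0, 0, 0, 0, 0, 0],
      ![0, 0, 1, 2, 3, 0, 4, 1, 2, 3, 4],
      ![0, 0, 1, 2, 3, 0, 4, 1, 2, 3, 4],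
      ![0, 0, 1, 2, 3, 0, 4, 2, 1, 3, 4],
      ![0, 0, 0, 0, 0, 0, 0, 0, 0, 0, 0],
      ![0, 0, 0, 0, 0, 0, 0, 0, 0, 0, 0],
      ![0, 0, 0, 0, 0, 0, 0, 0, 0, 0, 0],
      ![0, 0, 0, 0, 0, 0, 0, 0, 0, 0, 0],
      ![0, 0, 1, 2, 3, 0, 4, 1, 3, 2, 4],
      ![0, 0, 1, 2, 3, 0, 4, 1, 2, 3, 4],
      ![0, 0, 0, 0, 0, 0, 0, 0, 0, 0, 0]]]

lemma T_ok : ∀ a b : Fin 11, adjB 0 a = true → adjB 0 b = true → a ≠ b →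
    (∀ x y : Fin 11, x ≠ 0 → y ≠ 0 → adjB x y = true → T a b x ≠ T a b y) ∧
    (∀ x : Fin 11, adjB 0 x = true → x ≠ a → T a b x ≠ T a b a) ∧
    (∀ x : Fin 11, adjB 0 x = true → x ≠ b → T a b x ≠ T a b b) := by decide +kernel

lemma adjB_sub : ∀ w a b : Fin 11, adjB (a - w) (b - w) = adjB a b := by decide +kernel

/-- for every vertex `w` and all neighbours `a ≠ b` of `w` there is a colouring of `G0 - w` with five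
colours in which the colours of `a` and `b` occur only once in the neighbourhood of `w` -/
lemma exists_col (w a b : Fin 11) (ha : G0.Adj w a) (hb : G0.Adj w b) (hab : a ≠ b) :
    ∃ c : Fin 11 → Fin 5, (∀ x y, x ≠ w → y ≠ w → G0.Adj x y → c x ≠ c y) ∧
      (∀ x, G0.Adj w x → x ≠ a → c x ≠ c a) ∧ (∀ x, G0.Adj w x → x ≠ b → c x ≠ c b) := by
  have ha' : adjB 0 (a - w) = true := by
    have := adjB_sub w w a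
    rw [sub_self] at this
    rw [this]; exact ha
  have hb' : adjB 0 (b - w) = true := by
    have := adjB_sub w w b
    rw [sub_self] at this
    rw [this]; exact hb
  obtain ⟨h1, h2, h3⟩ := T_ok (a - w) (b - w) ha' hb' (fun h => hab (sub_left_injective h))
  refine ⟨fun x => T (a - w) (b - w) (x - w), ?_, ?_, ?_⟩
  · intro x y hx hy hxy
    exact h1 _ _ (sub_ne_zero.2 hx) (sub_ne_zero.2 hy) (by rw [adjB_sub]; exact hxy)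
  · intro x hx hxa
    refine h2 _ ?_ (fun h => hxa (sub_left_injective h))
    have := adjB_sub w w x
    rw [sub_self] at this
    rw [this]; exact hx
  · intro x hx hxb
    refine h3 _ ?_ (fun h => hxb (sub_left_injective h))
    have := adjB_sub w w x
    rw [sub_self] at this
    rw [this]; exact hx

lemma common : ∀ p q x : Fin 11, adjB p q = true →
    ∃ z : Fin 11, z ≠ x ∧ adjB p z = true ∧ adjB q z = true := by decide +kernel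

lemma two_nbrs : ∀ p q : Fin 11, adjB p q = true → ∃ z : Fin 11, z ≠ q ∧ adjB p z = true := by
  decide +kernel

lemma no_triple : ∀ a b c : Fin 11, a ≠ b → a ≠ c → b ≠ c →
    adjB a b = true ∨ adjB a c = true ∨ adjB b c = true := by decide +kernel

lemma col6 : G0.Colorable 6 := by
  refine ⟨SimpleGraph.Coloring.mk (![0, 1, 2, 3, 0, 1, 4, 2, 3, 5, 4] : Fin 11 → Fin 6) ?_⟩
  have h : ∀ a b : Fin 11, adjB a b = true →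
      (![0, 1, 2, 3, 0, 1, 4, 2, 3, 5, 4] : Fin 11 → Fin 6) a ≠
      (![0, 1, 2, 3, 0, 1, 4, 2, 3, 5, 4] : Fin 11 → Fin 6) b := by decide +kernel
  intro a b hab
  exact h a b hab

lemma not_col5 : ¬ G0.Colorable 5 := by
  rintro ⟨c⟩
  obtain ⟨y, hy⟩ := Fintype.exists_lt_card_fiber_of_mul_lt_card (f := fun x => c x) (n := 2)
    (by simp)
  obtain ⟨a, ha, b, hb, d, hd, hab, had, hbd⟩ := Finset.two_lt_card.1 hy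
  simp only [Finset.mem_filter, Finset.mem_univ, true_and] at ha hb hd
  rcases no_triple a b d hab had hbd with h | h | h
  · exact c.valid (v := a) (w := b) h (ha.trans hb.symm)
  · exact c.valid (v := a) (w := d) h (ha.trans hd.symm)
  · exact c.valid (v := b) (w := d) h (hb.trans hd.symm)

lemma del_col : ∀ e ∈ G0.edgeSet, (G0.deleteEdges {e}).Colorable 5 := by
  intro e
  induction e using Sym2.ind with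
  | _ w a =>
    intro he
    have hwa : G0.Adj w a := he
    obtain ⟨b, hba, hwb⟩ := two_nbrs w a hwa
    obtain ⟨c, h1, h2, h3⟩ := exists_col w a b hwa hwb hba.symm
    refine ⟨SimpleGraph.Coloring.mk (fun x => if x = w then c a else c x) ?_⟩
    intro x y hxy
    rw [SimpleGraph.deleteEdges_adj, Set.mem_singleton_iff] at hxy
    obtain ⟨hxy, hne⟩ := hxy
    by_cases hx : x = w
    · subst hx
      have hyx : y ≠ x := hxy.ne'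
      have hya : y ≠ a := fun h => hne (by rw [h])
      simp only [if_true, if_neg hyx]
      exact (h2 y hxy hya).symm
    · by_cases hy : y = w
      · subst hy
        have hxa : x ≠ a := fun h => hne (by rw [h, Sym2.eq_swap])
        simp only [if_true, if_neg hx]
        exact h2 x hxy.symm hxa
      · simp only [if_neg hx, if_neg hy]
        exact h1 x y hx hy hxy

lemma no_isol : ∀ x, ∃ y, G0.Adj x y := by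
  have : ∀ x : Fin 11, ∃ y : Fin 11, adjB x y = true := by decide +kernel
  exact this

end Pool.Agent.H325R3.Cyc11
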