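import Pool.Agent.H325R3.CritBasic

/-! A graph on 22 vertices which is 4-critical and has no construction through 4-critical graphs. -/

set_option autoImplicit false
set_option maxRecDepth 100000

namespace Pool.Agent.H325R3.Four

open Pool.Agent.H325R3.CritBasic

/-- a Hajos join has a cut of a vertex and an edge; `NoSep` says that there is none -/
def NoSep {V : Type} (G : SimpleGraph V) : Prop :=
  ∀ p q x, G.Adj p q → x ≠ p → x ≠ q → ∀ S : V → Prop, S p →
    (∀ s t, S s → s ≠ x → t ≠ x → G.Adj s t → s(s, t) ≠ s(p, q) → S t) → S q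

lemma no_join_of_noSep {a b m : ℕ} {G1 : SimpleGraph (Fin a)} {G2 : SimpleGraph (Fin b)}
    {H : SimpleGraph (Fin m)} (hS : NoSep H) (hj : IsHajosJoin G1 G2 H) : False := by
  obtain ⟨x1, y1, x2, y2, f1, f2, e1, e2, i1, i2, hxx, hf, hcov, hadj⟩ := hj
  have hpq : H.Adj (f1 y1) (f2 y2) := (hadj _ _).2 (Or.inr (Or.inr rfl))
  have hp : f1 x1 ≠ f1 y1 := fun h => e1.ne (i1 h)
  have hq : f1 x1 ≠ f2 y2 := fun h => e2.ne (i2 (hxx ▸ h))
  have step : ∀ s t, (∃ i, f1 i = s) → s ≠ f1 x1 → t ≠ f1 x1 → H.Adj s t →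
      s(s, t) ≠ s(f1 y1, f2 y2) → ∃ i, f1 i = t := by
    rintro s t ⟨i, rfl⟩ hs ht hst hne
    rcases (hadj _ _).1 hst with ⟨p, q, -, -, h⟩ | ⟨p, q, -, h5, -⟩ | h
    · exact ⟨q, h⟩
    · have := (hf _ _ h5.symm).1
      exact absurd (by rw [this]) hs
    · exact absurd h hne
  obtain ⟨i, hi⟩ := hS _ _ _ hpq hp hq (fun s => ∃ i, f1 i = s) ⟨y1, rfl⟩ step
  have := (hf _ _ hi).2
  exact e2.ne this.symm

theorem not_built_of_noSep {q : ℕ} (hq : 0 < q) {m : ℕ} {G0 : SimpleGraph (Fin m)}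
    (hm : m ≠ q + 1) (h0 : PairCol q G0) (hS : NoSep G0) : ¬ CritBuilt (q + 1) G0 := by
  intro h
  cases h with
  | complete _ h =>
    obtain ⟨e⟩ := h
    have h2 := Fintype.card_congr e.toEquiv
    simp at h2
    exact hm h2
  | join G1 G2 _ h1 h2 h hc => exact no_join_of_noSep hS h
  | identify G _ h1 h hc => exact no_ident hq (built_critical hq h1) h0 h

/-- the neighbours -/
def nb : Fin 22 → List (Fin 22) :=
  ![[1, 3, 10, 13],
    [0, 2, 4, 6],
    [1, 5, 7, 9],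
    [0, 4, 5, 15],
    [1, 3, 11, 18],
    [2, 3, 6, 19],
    [1, 5, 8, 21],
    [2, 8, 12, 18],
    [6, 7, 9, 16],
    [2, 8, 10, 14],
    [0, 9, 11, 12],
    [4, 10, 13, 16],
    [7, 10, 14, 15],
    [0, 11, 14, 21],
    [9, 12, 13, 19],
    [3, 12, 17, 20],
    [8, 11, 17],
    [15, 16, 18],
    [4, 7, 17],
    [5, 14, 20],
    [15, 19, 21],
    [6, 13, 20]]

def adjB (a b : Fin 22) : Bool := (nb a).contains b

lemma adjB_symm : ∀ a b : Fin 22, adjB a b = true → adjB b a = true := by decide +kernel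

lemma adjB_irrefl : ∀ a : Fin 22, adjB a a = false := by decide +kernel

def G0 : SimpleGraph (Fin 22) where
  Adj a b := adjB a b = true
  symm := ⟨fun a b h => adjB_symm a b h⟩
  loopless := ⟨fun a h => by rw [adjB_irrefl a] at h; exact Bool.false_ne_true h⟩

/-- the colourings of `G - w`: entry `[a, b, c]` with `c` written in base `3` -/
def tab : Fin 22 → List (Fin 22 × Fin 22 × ℕ) :=
  ![[(1, 3, 13295190186), (1, 10, 6810483627), (1, 13, 9137722815), (3, 10, 13036888851), (3, 13, 25265390001), (10, 13, 27639041676)],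
    [(0, 2, 13252117221), (0, 4, 6810483636), (0, 6, 6509162475), (2, 4, 18272402093), (2, 6, 22401403013), (4, 6, 27642267974)],
    [(1, 5, 13291030720), (1, 7, 22918258829), (1, 9, 24920002513), (5, 7, 22918317369), (5, 9, 6317559231), (7, 9, 19504213269)],
    [(0, 4, 25265390244), (0, 5, 13295169255), (0, 15, 22409957829), (4, 5, 13636701221), (4, 15, 22918251461), (5, 15, 13450996415)],
    [(1, 3, 27642267965), (1, 11, 19510565320), (1, 18, 13451173453), (3, 11, 25350066187), (3, 18, 24877132783), (11, 18, 17929866111)],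
    [(2, 3, 13291128759), (2, 6, 24080578836), (2, 19, 8971180491), (3, 6, 6661764667), (3, 19, 12135227239), (6, 19, 19504212825)],
    [(1, 5, 25350654583), (1, 8, 24920102395), (1, 21, 18272431505), (5, 8, 27639111399), (5, 21, 13626219561), (8, 21, 12128866323)],
    [(2, 8, 27639111657), (2, 12, 19504213266), (2, 18, 13449387643), (8, 12, 13635321319), (8, 18, 13277189215), (12, 18, 22553366267)],
    [(6, 7, 18815769885), (6, 9, 12128866320), (6, 16, 22544657213), (7, 9, 13678368040), (7, 16, 13623353857), (9, 16, 13108647781)],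
    [(2, 8, 24920992524), (2, 10, 25351759191), (2, 14, 4427746773), (8, 10, 8979644199), (8, 14, 13682778924), (10, 14, 27642209032)],
    [(0, 9, 27639041673), (0, 11, 6805853904), (0, 12, 27380245215), (9, 11, 27383751605), (9, 12, 25350635864), (11, 12, 22329070103)],
    [(4, 10, 17929866108), (4, 13, 7860154116), (4, 16, 6503918871), (10, 13, 22587350510), (10, 16, 13104827371), (13, 16, 24876885817)],
    [(7, 10, 23027234325), (7, 14, 13725830019), (7, 15, 22926496839), (10, 14, 24914707795), (10, 15, 22408589419), (14, 15, 13276248681)],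
    [(0, 11, 25350066453), (0, 14, 23910525975), (0, 21, 18276153519), (11, 14, 24656309291), (11, 21, 12134463995), (14, 21, 13618553591)],
    [(9, 12, 6719311875), (9, 13, 6718367091), (9, 19, 8972391453), (12, 13, 23907337329), (12, 19, 12128125089), (13, 19, 19501629319)],
    [(3, 12, 18090023887), (3, 17, 18344149801), (3, 20, 24715060855), (12, 17, 18346185633), (12, 20, 24720131589), (17, 20, 6632308893)],
    [(8, 11, 6461049297), (8, 17, 6718402335), (11, 17, 9043683283)],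
    [(15, 16, 8956831317), (15, 18, 6293923041), (16, 18, 24834016243)],
    [(4, 7, 6115748241), (4, 17, 6030582087), (7, 17, 24575735917)],
    [(5, 14, 18344150821), (5, 20, 4000228049), (14, 20, 25314518957)],
    [(15, 19, 22990066017), (15, 21, 13436647535), (19, 21, 10972966015)],
    [(6, 13, 7817394639), (6, 20, 3997077789), (13, 20, 6721536151)]]

/-- digit `x` of `N` in base `3` -/
def dig (N : ℕ) (x : Fin 22) : Fin 3 := ⟨N / 3 ^ x.val % 3, Nat.mod_lt _ (by norm_num)⟩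

def okT (w : Fin 22) (t : Fin 22 × Fin 22 × ℕ) : Bool :=
  ((List.finRange 22).all fun x => x == w || (nb x).all fun y => y == w ||
    dig t.2.2 x != dig t.2.2 y) &&
  ((nb w).all fun x => x == t.1 || dig t.2.2 x != dig t.2.2 t.1) &&
  ((nb w).all fun x => x == t.2.1 || dig t.2.2 x != dig t.2.2 t.2.1)

lemma tab_ok : ∀ w : Fin 22, ((tab w).all fun t => okT w t) = true := by decide +kernel

lemma tab_all : ∀ w : Fin 22, ((nb w).all fun a => (nb w).all fun b => a == b ||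
    (tab w).any fun t => (t.1 == a && t.2.1 == b) || (t.1 == b && t.2.1 == a)) = true := by
  decide +kernel

lemma okT_spec (w a b : Fin 22) (N : ℕ) (h : okT w (a, b, N) = true) :
    (∀ x y, x ≠ w → y ≠ w → adjB x y = true → dig N x ≠ dig N y) ∧
    (∀ x, adjB w x = true → x ≠ a → dig N x ≠ dig N a) ∧
    (∀ x, adjB w x = true → x ≠ b → dig N x ≠ dig N b) := by
  simp only [okT, Bool.and_eq_true, List.all_eq_true, Bool.or_eq_true, beq_iff_eq, bne_iff_ne,
    List.mem_finRange, true_implies] at h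
  obtain ⟨⟨h1, h2⟩, h3⟩ := h
  refine ⟨fun x y hx hy hxy => ?_, fun x hx hxa => ?_, fun x hx hxb => ?_⟩
  · rcases h1 x with h | h
    · exact absurd h hx
    · rcases h y (List.contains_iff_mem.1 hxy) with h | h
      · exact absurd h hy
      · exact h
  · rcases h2 x (List.contains_iff_mem.1 hx) with h | h
    · exact absurd h hxa
    · exact h
  · rcases h3 x (List.contains_iff_mem.1 hx) with h | h
    · exact absurd h hxb
    · exact h

lemma pairCol : PairCol 3 G0 := by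
  intro w a b ha hb hab
  have hall := tab_all w
  simp only [List.all_eq_true, Bool.or_eq_true, beq_iff_eq, List.any_eq_true,
    Bool.and_eq_true] at hall
  have hok := tab_ok w
  rw [List.all_eq_true] at hok
  rcases hall a (List.contains_iff_mem.1 ha) b (List.contains_iff_mem.1 hb) with h |
    ⟨⟨t1, t2, N⟩, ht, h | h⟩
  · exact absurd h hab
  · obtain ⟨rfl, rfl⟩ := h
    obtain ⟨h1, h2, h3⟩ := okT_spec w _ _ N (hok _ ht)
    exact ⟨dig N, h1, h2, h3⟩
  · obtain ⟨rfl, rfl⟩ := h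
    obtain ⟨h1, h2, h3⟩ := okT_spec w _ _ N (hok _ ht)
    exact ⟨dig N, h1, h3, h2⟩

/-- paths around the edge `pq` -/
def paths : Fin 22 → List (Fin 22 × List (List (Fin 22))) :=
  ![[(1, [[3, 4, 1], [10, 9, 2, 1]]), (3, [[10, 11, 4, 3], [1, 2, 5, 3]]), (10, [[13, 11, 10], [1, 2, 9, 10]]), (13, [[10, 11, 13], [1, 4, 11, 13], [1, 6, 21, 13]])],
    [(0, [[4, 3, 0], [2, 9, 10, 0]]), (2, [[6, 5, 2], [0, 10, 9, 2]]), (4, [[2, 5, 3, 4], [0, 3, 4], [0, 10, 11, 4]]), (6, [[2, 5, 6], [0, 3, 5, 6], [0, 13, 21, 6]])],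
    [(1, [[5, 6, 1], [9, 10, 0, 1]]), (5, [[1, 6, 5], [7, 8, 6, 5], [1, 0, 3, 5]]), (7, [[9, 8, 7], [1, 4, 18, 7]]), (9, [[7, 8, 9], [1, 0, 10, 9]])],
    [(0, [[4, 11, 10, 0], [5, 2, 1, 0]]), (4, [[5, 2, 1, 4], [0, 10, 11, 4]]), (5, [[4, 1, 2, 5], [15, 20, 19, 5]]), (15, [[4, 18, 17, 15], [0, 10, 12, 15]])],
    [(1, [[3, 5, 2, 1], [3, 0, 1], [11, 10, 0, 1]]), (3, [[1, 2, 5, 3], [11, 10, 0, 3]]), (11, [[18, 17, 16, 11], [1, 0, 10, 11]]), (18, [[1, 2, 7, 18], [3, 15, 17, 18]])],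
    [(2, [[6, 1, 2], [6, 8, 7, 2], [3, 0, 1, 2]]), (3, [[2, 1, 4, 3], [19, 20, 15, 3]]), (6, [[2, 1, 6], [2, 7, 8, 6], [3, 0, 1, 6]]), (19, [[2, 9, 14, 19], [3, 15, 20, 19]])],
    [(1, [[5, 2, 1], [5, 3, 0, 1], [21, 13, 0, 1]]), (5, [[1, 2, 5], [8, 7, 2, 5], [1, 0, 3, 5]]), (8, [[1, 2, 7, 8], [5, 2, 7, 8], [1, 0, 10, 9, 8]]), (21, [[5, 19, 20, 21], [1, 0, 13, 21]])],
    [(2, [[8, 9, 2], [18, 4, 1, 2]]), (8, [[2, 9, 8], [12, 10, 9, 8], [2, 1, 6, 8]]), (12, [[2, 9, 10, 12], [8, 9, 10, 12], [18, 17, 15, 12]]), (18, [[2, 1, 4, 18], [8, 16, 17, 18]])],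
    [(6, [[7, 2, 1, 6], [7, 2, 5, 6], [9, 10, 0, 1, 6]]), (7, [[9, 2, 7], [9, 10, 12, 7], [6, 1, 2, 7]]), (9, [[7, 2, 9], [7, 12, 10, 9], [6, 1, 2, 9]]), (16, [[7, 18, 17, 16], [9, 10, 11, 16]])],
    [(2, [[8, 7, 2], [10, 0, 1, 2]]), (8, [[2, 7, 8], [10, 12, 7, 8], [2, 1, 6, 8]]), (10, [[14, 12, 10], [2, 1, 0, 10]]), (14, [[10, 12, 14], [2, 5, 19, 14]])],
    [(0, [[11, 13, 0], [9, 2, 1, 0]]), (9, [[12, 14, 9], [0, 1, 2, 9]]), (11, [[9, 8, 16, 11], [0, 13, 11]]), (12, [[9, 14, 12], [0, 3, 15, 12]])],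
    [(4, [[16, 17, 18, 4], [10, 0, 1, 4]]), (10, [[16, 8, 9, 10], [13, 0, 10]]), (13, [[10, 9, 14, 13], [10, 0, 13], [4, 1, 0, 13]]), (16, [[4, 18, 17, 16], [10, 9, 8, 16]])],
    [(7, [[10, 9, 2, 7], [10, 9, 8, 7], [15, 17, 18, 7]]), (10, [[14, 9, 10], [15, 3, 0, 10]]), (14, [[10, 9, 14], [10, 0, 13, 14], [7, 2, 9, 14]]), (15, [[7, 18, 17, 15], [10, 0, 3, 15]])],
    [(0, [[11, 10, 0], [11, 4, 1, 0], [21, 6, 1, 0]]), (11, [[14, 9, 10, 11], [0, 10, 11], [0, 1, 4, 11]]), (14, [[11, 10, 9, 14], [0, 10, 12, 14], [21, 20, 19, 14]]), (21, [[14, 19, 20, 21], [0, 1, 6, 21]])],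
    [(9, [[12, 10, 9], [19, 5, 2, 9]]), (12, [[9, 10, 12], [13, 0, 10, 12], [9, 2, 7, 12]]), (13, [[9, 10, 11, 13], [12, 10, 0, 13], [19, 20, 21, 13]]), (19, [[9, 2, 5, 19], [12, 15, 20, 19]])],
    [(3, [[17, 18, 4, 3], [12, 10, 0, 3]]), (12, [[17, 18, 7, 12], [3, 0, 10, 12]]), (17, [[3, 4, 18, 17], [12, 7, 18, 17], [3, 4, 11, 16, 17]]), (20, [[3, 5, 19, 20], [12, 14, 19, 20], [3, 0, 13, 21, 20]])],
    [(8, [[17, 18, 7, 8], [11, 10, 9, 8]]), (11, [[17, 18, 4, 11], [8, 9, 10, 11]]), (17, [[8, 7, 18, 17], [11, 4, 18, 17], [8, 7, 12, 15, 17]])],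
    [(15, [[18, 4, 3, 15], [18, 7, 12, 15], [16, 11, 4, 3, 15]]), (16, [[18, 7, 8, 16], [18, 4, 11, 16], [15, 12, 7, 8, 16]]), (18, [[15, 3, 4, 18], [15, 12, 7, 18], [16, 8, 7, 18]])],
    [(4, [[7, 2, 1, 4], [17, 15, 3, 4]]), (7, [[4, 1, 2, 7], [17, 16, 8, 7]]), (17, [[4, 3, 15, 17], [7, 12, 15, 17], [7, 8, 16, 17]])],
    [(5, [[14, 9, 2, 5], [20, 15, 3, 5]]), (14, [[5, 2, 9, 14], [20, 15, 12, 14]]), (20, [[5, 3, 15, 20], [5, 6, 21, 20], [14, 12, 15, 20]])],
    [(15, [[19, 5, 3, 15], [19, 14, 12, 15], [21, 13, 0, 3, 15]]), (19, [[15, 3, 5, 19], [21, 6, 5, 19], [15, 12, 14, 19]]), (21, [[19, 5, 6, 21], [19, 14, 13, 21], [15, 3, 0, 13, 21]])],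
    [(6, [[20, 19, 5, 6], [13, 0, 1, 6]]), (13, [[20, 19, 14, 13], [6, 1, 0, 13]]), (20, [[6, 5, 19, 20], [13, 14, 19, 20], [13, 0, 3, 15, 20]])]]

def walk (p q x : Fin 22) : Fin 22 → List (Fin 22) → Bool
  | s, [] => s == q
  | s, t :: ts => s != x && t != x && adjB s t && !(s == p && t == q) && !(s == q && t == p) &&
      walk p q x t ts

lemma walk_sound (p q x : Fin 22) (S : Fin 22 → Prop)
    (hS : ∀ s t, S s → s ≠ x → t ≠ x → G0.Adj s t → s(s, t) ≠ s(p, q) → S t) :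
    ∀ (ts : List (Fin 22)) (s : Fin 22), S s → walk p q x s ts = true → S q := by
  intro ts
  induction ts with
  | nil =>
    intro s hs h
    simp only [walk, beq_iff_eq] at h
    rwa [h] at hs
  | cons t ts ih =>
    intro s hs h
    simp only [walk, Bool.and_eq_true, bne_iff_ne, Bool.not_eq_true', Bool.and_eq_false_iff,
      beq_eq_false_iff_ne] at h
    obtain ⟨⟨⟨⟨⟨h1, h2⟩, h3⟩, h4⟩, h5⟩, h6⟩ := h
    refine ih t (hS s t hs h1 h2 h3 ?_) h6
    intro he
    rw [Sym2.eq_iff] at he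
    rcases he with ⟨ha, hb⟩ | ⟨ha, hb⟩
    · rcases h4 with h | h
      · exact h ha
      · exact h hb
    · rcases h5 with h | h
      · exact h ha
      · exact h hb

lemma paths_ok : ∀ p : Fin 22, ((nb p).all fun q => (List.finRange 22).all fun x =>
    x == p || x == q || (paths p).any fun r => r.1 == q && r.2.any fun ts => walk p q x p ts)
    = true := by decide +kernel

lemma noSep : NoSep G0 := by
  intro p q x hpq hxp hxq S hp hS
  have h := paths_ok p
  simp only [List.all_eq_true, Bool.or_eq_true, beq_iff_eq, List.any_eq_true,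
    Bool.and_eq_true] at h
  rcases h q (List.contains_iff_mem.1 hpq) x (List.mem_finRange x) with (h | h) |
    ⟨r, -, -, ts, -, h⟩
  · exact absurd h hxp
  · exact absurd h hxq
  · exact walk_sound p q x S hS ts p hp h

lemma two_nbrs : ∀ p r : Fin 22, adjB p r = true → ∃ z : Fin 22, z ≠ r ∧ adjB p z = true := by
  decide +kernel

lemma no_isol : ∀ x : Fin 22, ∃ y : Fin 22, adjB x y = true := by decide +kernel

def c4 : Fin 22 → Fin 4 := ![0, 1, 0, 1, 0, 2, 0, 1, 2, 1, 2, 1, 0, 2, 3, 2, 0, 1, 2, 0, 1, 3]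

lemma c4_ok : ∀ a b : Fin 22, adjB a b = true → c4 a ≠ c4 b := by decide +kernel

lemma col : G0.Colorable 4 :=
  ⟨SimpleGraph.Coloring.mk c4 (fun {a b} hab => c4_ok a b hab)⟩

/-- search for a colouring with three colours -/
def chk : List (Fin 22) → List (Fin 22 × Fin 3) → Bool
  | [], _ => false
  | v :: vs, l =>
    (l.any (fun p => p.2 == 0 && adjB v p.1) || chk vs ((v, 0) :: l)) &&
    (l.any (fun p => p.2 == 1 && adjB v p.1) || chk vs ((v, 1) :: l)) &&
    (l.any (fun p => p.2 == 2 && adjB v p.1) || chk vs ((v, 2) :: l))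

lemma chk_sound (f : Fin 22 → Fin 3) (hf : ∀ x y, adjB x y = true → f x ≠ f y) :
    ∀ (vs : List (Fin 22)) (l : List (Fin 22 × Fin 3)), (∀ p ∈ l, f p.1 = p.2) →
      chk vs l = true → False := by
  intro vs
  induction vs with
  | nil =>
    intro l hl h
    simp [chk] at h
  | cons v vs ih =>
    intro l hl h
    have key : ∀ c : Fin 3, f v = c →
        (l.any (fun p => p.2 == c && adjB v p.1) || chk vs ((v, c) :: l)) = true → False := by
      intro c hc h1
      rw [Bool.or_eq_true] at h1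
      rcases h1 with h1 | h1
      · rw [List.any_eq_true] at h1
        obtain ⟨p, hp, h2⟩ := h1
        rw [Bool.and_eq_true, beq_iff_eq] at h2
        exact hf v p.1 h2.2 (by rw [hc, hl p hp, h2.1])
      · refine ih _ ?_ h1
        intro p hp
        rcases List.mem_cons.1 hp with rfl | hp
        · exact hc
        · exact hl p hp
    simp only [chk] at h
    rw [Bool.and_eq_true, Bool.and_eq_true] at h
    obtain ⟨⟨h0, h1⟩, h2⟩ := h
    have h3 : f v = 0 ∨ f v = 1 ∨ f v = 2 := by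
      generalize f v = c
      revert c
      decide
    rcases h3 with h3 | h3 | h3
    · exact key 0 h3 h0
    · exact key 1 h3 h1
    · exact key 2 h3 h2

lemma chk_ok : chk (List.finRange 22) [] = true := by decide +kernel

lemma not_col : ¬ G0.Colorable 3 := by
  rintro ⟨c⟩
  exact chk_sound (fun x => c x) (fun x y hxy => c.valid (v := x) (w := y) hxy) _ [] (by simp)
    chk_ok

theorem main : IsCritical 4 G0 ∧ ¬ CritBuilt 4 G0 :=
  ⟨critical_of_pairCol col not_col pairCol two_nbrs no_isol,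
    not_built_of_noSep (q := 3) (by norm_num) (by norm_num) pairCol noSep⟩

end Pool.Agent.H325R3.Four
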